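import Pool.Agent.TH502.IC.Basic

/-!
# Ideal Chomp on domains of dimension one

Definitions (`Pool/Agent/TH502/IC/Basic.lean`): `Outcome`, `FirstWins`, `SecondWins` (the game of the
problem), `SplitMod I` (`R / I` has an idempotent other than `0` and `1`), `SocleMod I` (`R / I` has
an element, neither zero nor a unit, in every nonzero ideal; for instance `R / I` is an artinian
Gorenstein local ring and not a field).

1. Let `R` be a noetherian ring. If `R / I` is a product of two nonzero rings, or has an element,
   neither zero nor a unit, in every nonzero ideal, then the player to move wins from `I`. (The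
   second part is strategy stealing.)
   In particular, for every field `K`, the first move `f g` with nonunits `f`, `g` which generate the
   unit ideal loses on `K[x_1, ..., x_n]`.
2. Let `R` be a noetherian ring such that every proper principal ideal `(a)`, `a ≠ 0`, is maximal or
   of one of the two kinds in 1 (for instance a one-dimensional Gorenstein domain). Then the first
   player wins if some nonzero `a` generates a maximal ideal, and otherwise the second player wins.
3. The same holds for all Dedekind domains; so the second player wins on the coordinate ring of a
   smooth affine curve unless some point is a principal divisor.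
-/

set_option autoImplicit false

namespace Pool.Agent.Results.MP_69b5dd_co.DimensionOne

open Pool.Agent.TH502.IC Ideal

/-- Ideal Chomp on rings all of whose nonzero proper principal ideals are maximal, split, or have a
quotient with an element in every nonzero ideal, and on Dedekind domains. -/
theorem result :
    (∀ (R : Type) [CommRing R] [IsNoetherianRing R] (I : Ideal R), SplitMod I ∨ SocleMod I →
      Outcome true I) ∧
    (∀ (K : Type) [Field K] (n : ℕ) (f g : MvPolynomial (Fin n) K), ¬ IsUnit f → ¬ IsUnit g →
      IsCoprime f g → Outcome true (span {f * g})) ∧
    (∀ (R : Type) [CommRing R] [IsNoetherianRing R],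
      (∀ a : R, a ≠ 0 → span {a} ≠ ⊤ → (span {a}).IsMaximal ∨ SplitMod (span {a}) ∨
        SocleMod (span {a})) →
      (FirstWins R ↔ ∃ a : R, a ≠ 0 ∧ (span {a}).IsMaximal) ∧
        (SecondWins R ↔ ¬ ∃ a : R, a ≠ 0 ∧ (span {a}).IsMaximal)) ∧
    (∀ (R : Type) [CommRing R] [IsDedekindDomain R],
      (FirstWins R ↔ ∃ a : R, a ≠ 0 ∧ (span {a}).IsMaximal) ∧
        (SecondWins R ↔ ¬ ∃ a : R, a ≠ 0 ∧ (span {a}).IsMaximal)) := by
  refine ⟨fun R _ _ I h => h.elim split_wins socle_wins,
    fun K _ n f g hf hg h => split_wins (split_of_coprime hf hg h), fun R _ _ H => first_iff ?_,
    fun R _ _ => first_iff dedekind⟩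
  intro a ha hne hm
  rcases H a ha hne with h | h | h
  · exact absurd h hm
  · exact split_wins h
  · exact socle_wins h

end Pool.Agent.Results.MP_69b5dd_co.DimensionOne
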