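import Pool.Agent.H170IC.Fin

/-!
# Ideal Chomp: openings which are irreducible polynomials in two of three variables

`Wins I` (in `Pool/Agent/H170IC/Game.lean`) means that the player to move can force a win from the
ideal `I`, and `Loses I` that the other player can.
-/

set_option autoImplicit false

namespace Pool.Agent.Results.MP_69b5dd_co.PlaneCurveOpenings

open Ideal Pool.Agent.H170IC

/-- Let `K` be algebraically closed, `f` an irreducible polynomial in two variables and
`O = K[x, y] / (f)`.  If no maximal ideal of `O` is principal then the second player wins on `O`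
and the opening `z` wins on `O[z]`; otherwise the opening `z ^ 2` wins on `O[z]`.  So the first
player wins on `O[z]`, and the opening `f` loses on `K[x, y, z]`. -/
theorem result (K : Type) [Field K] [IsAlgClosed K] (f : MvPolynomial (Fin 2) K)
    (hf : Irreducible f) :
    ((∀ t, ¬ (span {t} : Ideal (MvPolynomial (Fin 2) K ⧸ span {f})).IsMaximal) →
      Loses (⊥ : Ideal (MvPolynomial (Fin 2) K ⧸ span {f})) ∧
      Loses (R := Polynomial (MvPolynomial (Fin 2) K ⧸ span {f})) (span {Polynomial.X})) ∧
    ((∃ t, (span {t} : Ideal (MvPolynomial (Fin 2) K ⧸ span {f})).IsMaximal) →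
      Loses (R := Polynomial (MvPolynomial (Fin 2) K ⧸ span {f})) (span {Polynomial.X ^ 2})) ∧
    Wins (R := Polynomial (MvPolynomial (Fin 2) K ⧸ span {f})) ⊥ ∧
    Wins (span {MvPolynomial.rename Fin.succ f} : Ideal (MvPolynomial (Fin 3) K)) :=
  final K f hf

end Pool.Agent.Results.MP_69b5dd_co.PlaneCurveOpenings
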